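import Pool.Agent.MP_670f9a_nt.H13.Spec2

/-! The inequality for sequences behind the lower bound for the Mahler measure. -/

namespace Pool.Agent.MP_670f9a_nt.H5

open Real Finset Pool.Agent.MP_670f9a_nt.NP
open scoped ComplexConjugate

theorem norm_root {J : ℕ} (hJ : 1 ≤ J) {z : ℂ} (hz : z ^ J = 1) : ‖z‖ = 1 := by
  have h1 : ‖z‖ ^ J = 1 := by rw [← norm_pow, hz, norm_one]
  exact (pow_eq_one_iff_of_nonneg (norm_nonneg z) (by omega)).1 h1

theorem pow_sub_le (a b : ℝ) (hb : 0 ≤ b) (hab : b ≤ a) (ha : a ≤ 1) (r : ℕ) :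
    a ^ r - b ^ r ≤ r * (a - b) := by
  induction r with
  | zero => simp
  | succ r ih =>
    have h0 : 0 ≤ a := hb.trans hab
    have h1 : b ^ r ≤ 1 := pow_le_one₀ hb (hab.trans ha)
    have h2 : 0 ≤ a ^ r - b ^ r := sub_nonneg.2 (pow_le_pow_left₀ hb hab r)
    have h3 : a ^ (r + 1) - b ^ (r + 1) = a * (a ^ r - b ^ r) + (a - b) * b ^ r := by ring
    have h4 : a * (a ^ r - b ^ r) ≤ a ^ r - b ^ r := mul_le_of_le_one_left h2 ha
    have h5 : (a - b) * b ^ r ≤ a - b := mul_le_of_le_one_right (sub_nonneg.2 hab) h1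
    push_cast
    nlinarith

theorem half_pow (s : ℝ) (J : ℕ) (hs : 0 < s) (hs1 : s ≤ 1) (hJ : 1 ≤ s * J) :
    (1 - s) ^ J ≤ 1 / 2 := by
  have h1 : 1 + (J : ℝ) * s ≤ (1 + s) ^ J := one_add_mul_le_pow (by linarith) J
  have h2 : (1 - s) ^ J * (1 + s) ^ J ≤ 1 := by
    rw [← mul_pow]
    exact pow_le_one₀ (mul_nonneg (by linarith) (by linarith)) (by nlinarith)
  have h3 : 0 ≤ (1 - s) ^ J := pow_nonneg (by linarith) J
  have h4 : (1 - s) ^ J * 2 ≤ (1 - s) ^ J * (1 + s) ^ J :=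
    mul_le_mul_of_nonneg_left (by nlinarith) h3
  linarith

/-- The truncated Cauchy kernel summed over a set of roots of unity: upper bound. -/
theorem cauchy_up (h : SKern) (J N : ℕ) (S : Finset ℂ) (ρ : ℝ) (u : ℂ) (hJ : 1 ≤ J)
    (hS : ∀ z ∈ S, z ^ J = 1) (h0 : 0 ≤ ρ) (h1 : ρ < 1) (hh : ρ ^ J ≤ 1 / 2) (hu : ‖u‖ = 1) :
    ∑ z ∈ S, (1 + ∑ r ∈ Icc 1 N, ρ ^ r * ((u * conj z) ^ r).re) ≤
      2 * J + S.card * (ρ ^ N / (1 - ρ)) := by
  obtain ⟨k1, -, -, -, k5⟩ := h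
  have ha : ‖(ρ : ℂ) * u‖ = ρ := by
    rw [norm_mul, hu, mul_one, Complex.norm_real, Real.norm_of_nonneg h0]
  have e1 := k1 J S (ρ * u) hJ hS (by rw [ha]; exact h1)
  rw [ha] at e1
  have e2 : (J : ℝ) / (1 - ρ ^ J) ≤ 2 * J := by
    rw [div_le_iff₀ (by linarith)]
    have : (0 : ℝ) ≤ J := Nat.cast_nonneg J
    nlinarith
  have e3 : ∀ z ∈ S, 1 + ∑ r ∈ Icc 1 N, ρ ^ r * ((u * conj z) ^ r).re ≤
      (1 / (1 - ρ * u * conj z)).re + ρ ^ N / (1 - ρ) := by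
    intro z hz
    have hn : ‖u * conj z‖ ≤ 1 := by
      rw [norm_mul, hu, Complex.norm_conj, norm_root hJ (hS z hz)]
      norm_num
    have := (abs_le.1 (k5 ρ (u * conj z) N h0 h1 hn).2).1
    rw [mul_assoc]
    linarith
  calc _ ≤ ∑ z ∈ S, ((1 / (1 - ρ * u * conj z)).re + ρ ^ N / (1 - ρ)) := sum_le_sum e3
    _ = ∑ z ∈ S, (1 / (1 - ρ * u * conj z)).re + S.card * (ρ ^ N / (1 - ρ)) := by
      rw [sum_add_distrib, sum_const, nsmul_eq_mul]
    _ ≤ _ := by linarith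

/-- The truncated Cauchy kernel: lower bound. -/
theorem cauchy_low (h : SKern) (N : ℕ) (ρ : ℝ) (t : ℂ) (h0 : 0 ≤ ρ) (h1 : ρ < 1)
    (ht : ‖t‖ ≤ 1) :
    -(ρ ^ N / (1 - ρ)) ≤ 1 + ∑ r ∈ Icc 1 N, ρ ^ r * (t ^ r).re := by
  obtain ⟨-, k2, -, -, k5⟩ := h
  have ha : ‖(ρ : ℂ) * t‖ < 1 := by
    rw [norm_mul, Complex.norm_real, Real.norm_of_nonneg h0]
    nlinarith [norm_nonneg t]
  have e1 := k2 _ ha
  have := (abs_le.1 (k5 ρ t N h0 h1 ht).2).2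
  linarith

theorem re_conj_sum (S : Finset ℂ) (u : ℂ) (r : ℕ) :
    (u ^ r * conj (∑ z ∈ S, z ^ r)).re = ∑ z ∈ S, ((u * conj z) ^ r).re := by
  rw [map_sum, mul_sum, Complex.re_sum]
  refine sum_congr rfl fun z _ => ?_
  rw [mul_pow, map_pow]

/-- The energy of the power sums of a set of roots of unity. -/
theorem energy (h : SKern) (J N : ℕ) (S : Finset ℂ) (ρ : ℝ) (hJ : 1 ≤ J)
    (hS : ∀ z ∈ S, z ^ J = 1) (h0 : 0 ≤ ρ) (h1 : ρ < 1) (hh : ρ ^ J ≤ 1 / 2) :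
    ∑ r ∈ Icc 1 N, ρ ^ r * ‖∑ z ∈ S, z ^ r‖ ^ 2 ≤
      S.card * (2 * J + S.card * (ρ ^ N / (1 - ρ))) := by
  have e1 : ∀ r : ℕ, ‖∑ z ∈ S, z ^ r‖ ^ 2 = ∑ u ∈ S, ∑ z ∈ S, ((u * conj z) ^ r).re := by
    intro r
    have : (‖∑ z ∈ S, z ^ r‖ ^ 2 : ℝ) =
        ((∑ z ∈ S, z ^ r) * conj (∑ z ∈ S, z ^ r)).re := by
      rw [Complex.mul_conj, Complex.ofReal_re, Complex.normSq_eq_norm_sq]
    rw [this, sum_mul, Complex.re_sum]
    exact sum_congr rfl fun u _ => re_conj_sum S u r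
  have e2 : ∑ r ∈ Icc 1 N, ρ ^ r * ‖∑ z ∈ S, z ^ r‖ ^ 2 =
      ∑ u ∈ S, ∑ z ∈ S, ∑ r ∈ Icc 1 N, ρ ^ r * ((u * conj z) ^ r).re := by
    simp_rw [e1, mul_sum]
    rw [sum_comm]
    exact sum_congr rfl fun u _ => sum_comm
  rw [e2]
  have e3 : ∀ u ∈ S, ∑ z ∈ S, ∑ r ∈ Icc 1 N, ρ ^ r * ((u * conj z) ^ r).re ≤
      2 * J + S.card * (ρ ^ N / (1 - ρ)) := by
    intro u hu
    refine le_trans (sum_le_sum fun z _ => ?_)
      (cauchy_up h J N S ρ u hJ hS h0 h1 hh (norm_root hJ (hS u hu)))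
    linarith
  refine (sum_le_sum e3).trans (le_of_eq ?_)
  rw [sum_const, nsmul_eq_mul]

/-- The two-scale kernel. -/
noncomputable def kap (s : ℝ) (t : ℂ) : ℝ :=
  log ‖1 - (1 - 4 * s : ℝ) * t‖ - log ‖1 - (1 - s : ℝ) * t‖

theorem tail_le (s : ℝ) (N : ℕ) (hs : 0 < s) (hs1 : s ≤ 1 / 10) :
    (1 - 4 * s) ^ N / (1 - (1 - 4 * s)) ≤ (1 - s) ^ N / (1 - (1 - s)) := by
  have h1 : (1 - 4 * s) ^ N ≤ (1 - s) ^ N := pow_le_pow_left₀ (by linarith) (by linarith) N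
  exact div_le_div₀ (pow_nonneg (by linarith) N) h1 (by linarith) (by linarith)

theorem kap_up (h : SKern) (s : ℝ) (N : ℕ) (t : ℂ) (hs : 0 < s) (hs1 : s ≤ 1 / 10)
    (ht : ‖t‖ ≤ 1) :
    kap s t ≤ ∑ r ∈ Icc 1 N, ((1 - s) ^ r - (1 - 4 * s) ^ r) / r * (t ^ r).re +
      2 * ((1 - s) ^ N / (1 - (1 - s))) := by
  obtain ⟨-, -, -, -, k5⟩ := h
  have e1 := (abs_le.1 (k5 (1 - s) t N (by linarith) (by linarith) ht).1).1
  have e2 := (abs_le.1 (k5 (1 - 4 * s) t N (by linarith) (by linarith) ht).1).2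
  have e3 := tail_le s N hs hs1
  have e4 : ∑ r ∈ Icc 1 N, ((1 - s) ^ r - (1 - 4 * s) ^ r) / r * (t ^ r).re =
      ∑ r ∈ Icc 1 N, (1 - s) ^ r / r * (t ^ r).re -
        ∑ r ∈ Icc 1 N, (1 - 4 * s) ^ r / r * (t ^ r).re := by
    rw [← sum_sub_distrib]
    exact sum_congr rfl fun r _ => by ring
  unfold kap
  linarith

theorem kap_low (h : SKern) (l : ℕ) (s : ℝ) (S : Finset ℂ) (b g : ℂ) (hl : 1 ≤ l)
    (hs : s = 1 / (10 * l)) (hS : ∀ z ∈ S, z ^ (70 * l) = 1) (hc : S.card ≤ l) (hg : g ∈ S)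
    (hb0 : b ≠ 0) (hb : ‖b‖ ≤ 1) (hbg : ‖b - ‖b‖ * g‖ ≤ ‖b‖ * (π / (70 * l : ℕ))) :
    39 / 100 - 14 * l * (-log ‖b‖) ≤ ∑ z ∈ S, kap s (b * conj z) := by
  obtain ⟨-, -, -, k4, -⟩ := h
  have hl' : (1 : ℝ) ≤ l := by exact_mod_cast hl
  have hsl : s * l = 1 / 10 := by
    rw [hs]
    field_simp
  have hs0 : 0 < s := by
    rw [hs]
    positivity
  have hs1 : s ≤ 1 / 10 := by nlinarith
  have hJ : 1 ≤ 70 * l := by omega
  have hn : ∀ z ∈ S, ‖b * conj z‖ ≤ 1 := by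
    intro z hz
    rw [norm_mul, Complex.norm_conj, norm_root hJ (hS z hz), mul_one]
    exact hb
  have hlow : ∀ z ∈ S, -(3 * s) ≤ kap s (b * conj z) := fun z hz =>
    (k4 s _ hs0 hs1 (hn z hz)).1
  have hbp : 0 < ‖b‖ := norm_pos_iff.2 hb0
  have hlog : 1 - ‖b‖ ≤ -log ‖b‖ := by
    have := Real.log_le_sub_one_of_pos hbp
    linarith
  have hc' : (S.card : ℝ) ≤ l := by exact_mod_cast hc
  by_cases hnear : 1 - s / 2 ≤ ‖b‖
  · have hg1 : ‖g‖ = 1 := norm_root hJ (hS g hg)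
    have e1 : 1 - b * conj g = (g - b) * conj g := by
      rw [sub_mul, Complex.mul_conj, Complex.normSq_eq_norm_sq, hg1]
      simp
    have e2 : ‖g - b‖ ≤ ‖g - ‖b‖ * g‖ + ‖b - ‖b‖ * g‖ := by
      have : g - b = (g - ‖b‖ * g) - (b - ‖b‖ * g) := by ring
      rw [this]
      exact norm_sub_le _ _
    have e3 : ‖g - ‖b‖ * g‖ = 1 - ‖b‖ := by
      have : g - ‖b‖ * g = ((1 - ‖b‖ : ℝ) : ℂ) * g := by
        push_cast
        ring
      rw [this, norm_mul, hg1, mul_one, Complex.norm_real, Real.norm_of_nonneg (by linarith)]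
    have e4 : π / (70 * l : ℕ) ≤ s / 2 := by
      rw [div_le_iff₀ (by positivity)]
      push_cast
      nlinarith [Real.pi_lt_d2]
    have e5 : ‖b‖ * (π / (70 * l : ℕ)) ≤ π / (70 * l : ℕ) :=
      mul_le_of_le_one_left (by positivity) hb
    have e6 : ‖1 - b * conj g‖ ≤ s := by
      rw [e1, norm_mul, Complex.norm_conj, hg1, mul_one]
      linarith
    have e7 : log 2 ≤ kap s (b * conj g) := (k4 s _ hs0 hs1 (hn g hg)).2 e6
    classical
    rw [← add_sum_erase S _ hg]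
    have e8 : ∑ z ∈ S.erase g, -(3 * s) ≤ ∑ z ∈ S.erase g, kap s (b * conj z) :=
      sum_le_sum fun z hz => hlow z (mem_of_mem_erase hz)
    rw [sum_const, nsmul_eq_mul] at e8
    have e9 : ((S.erase g).card : ℝ) ≤ l :=
      le_trans (by exact_mod_cast card_erase_le) hc'
    have e10 := Real.log_two_gt_d9
    have e11 : 0 ≤ 14 * (l : ℝ) * (-log ‖b‖) := mul_nonneg (by positivity) (by linarith)
    nlinarith
  · have e8 : ∑ z ∈ S, -(3 * s) ≤ ∑ z ∈ S, kap s (b * conj z) := sum_le_sum hlow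
    rw [sum_const, nsmul_eq_mul] at e8
    have e9 : 14 * (l : ℝ) * (s / 2) ≤ 14 * l * (-log ‖b‖) :=
      mul_le_mul_of_nonneg_left (by linarith [not_le.1 hnear]) (by positivity)
    nlinarith

theorem term_le (d x : ℝ) (r : ℕ) (s ρ : ℝ) (M Z : ℂ) (hr : 1 ≤ r) (hd0 : 0 ≤ d)
    (hd1 : d ≤ ρ ^ r) (hd2 : d ≤ r * (3 * s)) (hx : x = (M * conj Z).re) :
    d / r * x ≤ 100 * (‖M‖ ^ 2 / r) + 3 * s / 400 * (ρ ^ r * ‖Z‖ ^ 2) := by
  have hr' : (0 : ℝ) < r := by exact_mod_cast hr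
  have e1 : x ≤ ‖M‖ * ‖Z‖ := by
    rw [hx, ← Complex.norm_conj Z, ← norm_mul]
    exact Complex.re_le_norm _
  have e2 : d * x ≤ 100 * ‖M‖ ^ 2 + d ^ 2 * ‖Z‖ ^ 2 / 400 := by
    have := mul_le_mul_of_nonneg_left e1 hd0
    nlinarith [sq_nonneg (10 * ‖M‖ - d * ‖Z‖ / 20)]
  have e3 : d ^ 2 ≤ r * (3 * s) * ρ ^ r := by
    rw [sq]
    exact mul_le_mul hd2 hd1 hd0 (hd0.trans hd2)
  have e4 : d ^ 2 * ‖Z‖ ^ 2 ≤ r * (3 * s) * ρ ^ r * ‖Z‖ ^ 2 :=
    mul_le_mul_of_nonneg_right e3 (sq_nonneg _)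
  have e5 : d / r * x = d * x / r := by ring
  have e6 : 100 * (‖M‖ ^ 2 / r) + 3 * s / 400 * (ρ ^ r * ‖Z‖ ^ 2) =
      (100 * ‖M‖ ^ 2 + r * (3 * s) * ρ ^ r * ‖Z‖ ^ 2 / 400) / r := by
    field_simp
  rw [e5, e6]
  exact div_le_div_of_nonneg_right (by linarith) hr'.le

theorem core (h : SKern) {ι : Type} [Fintype ι] (b : ι → ℂ) (L : ℕ) (M c : ℕ → ℂ) (ε : ℝ)
    (hε : 0 ≤ ε) (hL : Fintype.card ι ≤ L) (hb : ∀ i, b i ≠ 0 ∧ ‖b i‖ ≤ 1)
    (hlog : ∑ i, -log ‖b i‖ ≤ 2 * ε)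
    (hp : ∀ r, 1 ≤ r → ∑ i, b i ^ r = M r + 2 * r * c r)
    (hM : ∀ N, ∑ r ∈ Icc 1 N, ‖M r‖ ^ 2 / r ≤ 2 * L * ε)
    (hc : ∀ (N : ℕ) (a : ℕ → ℂ) (B : ℝ), 0 ≤ B →
      (∀ u : ℂ, ‖u‖ = 1 → (∑ r ∈ Icc 1 N, a r * u ^ r).re ≤ B) →
      (∑ r ∈ Icc 1 N, a r * c r).re ≤ B * ε) :
    (Fintype.card ι : ℝ) ≤ 10 ^ 4 * L * ε := by
  classical
  obtain ⟨l, hl⟩ : ∃ l, l = Fintype.card ι := ⟨_, rfl⟩
  rw [← hl] at hL ⊢
  rcases Nat.eq_zero_or_pos l with h0 | hl1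
  · rw [h0, Nat.cast_zero]
    positivity
  have hl' : (1 : ℝ) ≤ l := by exact_mod_cast hl1
  have hL' : (l : ℝ) ≤ L := by exact_mod_cast hL
  obtain ⟨s, hs⟩ : ∃ s : ℝ, s = 1 / (10 * l) := ⟨_, rfl⟩
  have hsl : s * l = 1 / 10 := by
    rw [hs]
    field_simp
  have hs0 : 0 < s := by
    rw [hs]
    positivity
  have hs1 : s ≤ 1 / 10 := by nlinarith
  have hJ : 1 ≤ 70 * l := by omega
  have hh : (1 - s) ^ (70 * l) ≤ 1 / 2 :=
    half_pow s _ hs0 (by linarith) (by push_cast; nlinarith)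
  choose g hg1 hg2 using fun i => h.2.2.1 (70 * l) (b i) hJ
  obtain ⟨S, hS⟩ : ∃ S : Finset ℂ, S = univ.image g := ⟨_, rfl⟩
  have hS1 : ∀ z ∈ S, z ^ (70 * l) = 1 := by
    intro z hz
    rw [hS] at hz
    obtain ⟨i, -, rfl⟩ := mem_image.1 hz
    exact hg1 i
  have hS2 : S.card ≤ l := by
    rw [hS, hl]
    exact card_image_le
  have hS2' : (S.card : ℝ) ≤ l := by exact_mod_cast hS2
  have hS3 : ∀ i, g i ∈ S := fun i => by
    rw [hS]
    exact mem_image_of_mem g (mem_univ i)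
  -- the choice of the truncation
  obtain ⟨K, hK⟩ : ∃ K : ℝ, K = l + 4 * l * ε + 2 * l ^ 2 := ⟨_, rfl⟩
  have hK0 : 0 < K := by
    rw [hK]
    positivity
  obtain ⟨N, hN⟩ := exists_pow_lt_of_lt_one (show 0 < s / (10 * K) by positivity)
    (show 1 - s < 1 by linarith)
  obtain ⟨τ, hτ⟩ : ∃ τ : ℝ, τ = (1 - s) ^ N / (1 - (1 - s)) := ⟨_, rfl⟩
  have hτ0 : 0 ≤ τ := by
    rw [hτ]
    exact div_nonneg (pow_nonneg (by linarith) N) (by linarith)
  have hτK : τ * K ≤ 1 / 10 := by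
    have e1 : τ ≤ 1 / (10 * K) := by
      rw [hτ, div_le_iff₀ (by linarith)]
      have : 1 / (10 * K) * (1 - (1 - s)) = s / (10 * K) := by ring
      rw [this]
      exact hN.le
    have e2 : 1 / (10 * K) * K = 1 / 10 := by field_simp
    rw [← e2]
    exact mul_le_mul_of_nonneg_right e1 hK0.le
  obtain ⟨d, hd⟩ : ∃ d : ℕ → ℝ, ∀ r, d r = (1 - s) ^ r - (1 - 4 * s) ^ r := ⟨_, fun _ => rfl⟩
  obtain ⟨Z, hZ⟩ : ∃ Z : ℕ → ℂ, ∀ r, Z r = ∑ z ∈ S, z ^ r := ⟨_, fun _ => rfl⟩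
  -- lower bound
  have low : 39 / 100 * l - 14 * l * (2 * ε) ≤ ∑ i, ∑ z ∈ S, kap s (b i * conj z) := by
    have e1 : ∑ i, (39 / 100 - 14 * l * (-log ‖b i‖)) ≤
        ∑ i, ∑ z ∈ S, kap s (b i * conj z) :=
      sum_le_sum fun i _ => kap_low h l s S (b i) (g i) hl1 hs hS1 hS2 (hS3 i) (hb i).1
        (hb i).2 (hg2 i)
    rw [sum_sub_distrib, sum_const, ← mul_sum, card_univ, ← hl, nsmul_eq_mul] at e1
    have e2 : 14 * (l : ℝ) * ∑ i, -log ‖b i‖ ≤ 14 * l * (2 * ε) :=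
      mul_le_mul_of_nonneg_left hlog (by positivity)
    linarith
  -- upper bound by the truncated series
  have up : ∑ i, ∑ z ∈ S, kap s (b i * conj z) ≤
      ∑ r ∈ Icc 1 N, d r / r * ((∑ i, b i ^ r) * conj (Z r)).re + l * (l * (2 * τ)) := by
    have e1 : ∀ i, ∑ z ∈ S, kap s (b i * conj z) ≤
        ∑ r ∈ Icc 1 N, d r / r * (b i ^ r * conj (Z r)).re + l * (2 * τ) := by
      intro i
      have e2 : ∀ z ∈ S, kap s (b i * conj z) ≤
          ∑ r ∈ Icc 1 N, d r / r * ((b i * conj z) ^ r).re + 2 * τ := by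
        intro z hz
        simp_rw [hd]
        rw [hτ]
        refine kap_up h s N _ hs0 hs1 ?_
        rw [norm_mul, Complex.norm_conj, norm_root hJ (hS1 z hz), mul_one]
        exact (hb i).2
      refine (sum_le_sum e2).trans ?_
      rw [sum_add_distrib, sum_const, nsmul_eq_mul, sum_comm]
      refine add_le_add (le_of_eq (sum_congr rfl fun r _ => ?_))
        (mul_le_mul_of_nonneg_right hS2' (by positivity))
      rw [hZ, re_conj_sum, mul_sum]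
    refine (sum_le_sum fun i _ => e1 i).trans (le_of_eq ?_)
    rw [sum_add_distrib, sum_const, card_univ, ← hl, nsmul_eq_mul, sum_comm]
    congr 1
    refine sum_congr rfl fun r _ => ?_
    rw [sum_mul, Complex.re_sum, mul_sum]
  -- splitting
  have split : ∑ r ∈ Icc 1 N, d r / r * ((∑ i, b i ^ r) * conj (Z r)).re =
      ∑ r ∈ Icc 1 N, d r / r * (M r * conj (Z r)).re +
        (∑ r ∈ Icc 1 N, (((2 * d r : ℝ) : ℂ) * conj (Z r)) * c r).re := by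
    rw [Complex.re_sum, ← sum_add_distrib]
    refine sum_congr rfl fun r hr => ?_
    have hr1 : 1 ≤ r := (mem_Icc.1 hr).1
    have hr' : (r : ℝ) ≠ 0 := by
      have : r ≠ 0 := by omega
      exact_mod_cast this
    have e1 : (M r + 2 * r * c r) * conj (Z r) =
        M r * conj (Z r) + ((2 * r : ℝ) : ℂ) * (conj (Z r) * c r) := by
      push_cast
      ring
    rw [hp r hr1, e1, Complex.add_re, Complex.re_ofReal_mul, mul_assoc ((2 * d r : ℝ) : ℂ),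
      Complex.re_ofReal_mul]
    field_simp
  -- the first part
  have partM : ∑ r ∈ Icc 1 N, d r / r * (M r * conj (Z r)).re ≤
      100 * (2 * L * ε) + 3 * s / 400 * (l * (2 * (70 * l) + l * τ)) := by
    have e1 : ∀ r ∈ Icc 1 N, d r / r * (M r * conj (Z r)).re ≤
        100 * (‖M r‖ ^ 2 / r) + 3 * s / 400 * ((1 - s) ^ r * ‖Z r‖ ^ 2) := by
      intro r hr
      refine term_le (d r) _ r s (1 - s) (M r) (Z r) (mem_Icc.1 hr).1 ?_ ?_ ?_ rfl
      · rw [hd]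
        exact sub_nonneg.2 (pow_le_pow_left₀ (by linarith) (by linarith) r)
      · rw [hd]
        have : 0 ≤ (1 - 4 * s) ^ r := pow_nonneg (by linarith) r
        linarith
      · rw [hd]
        have := pow_sub_le (1 - s) (1 - 4 * s) (by linarith) (by linarith) (by linarith) r
        have e : (1 - s) - (1 - 4 * s) = 3 * s := by ring
        rwa [e] at this
    refine (sum_le_sum e1).trans ?_
    rw [sum_add_distrib, ← mul_sum, ← mul_sum]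
    refine add_le_add (mul_le_mul_of_nonneg_left (hM N) (by norm_num))
      (mul_le_mul_of_nonneg_left ?_ (by positivity))
    simp_rw [hZ]
    refine (energy h (70 * l) N S (1 - s) hJ hS1 (by linarith) (by linarith) hh).trans ?_
    rw [← hτ]
    push_cast
    refine mul_le_mul hS2' ?_ (by positivity) (by positivity)
    have := mul_le_mul_of_nonneg_right hS2' hτ0
    linarith
  -- the second part
  have partC : (∑ r ∈ Icc 1 N, (((2 * d r : ℝ) : ℂ) * conj (Z r)) * c r).re ≤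
      (2 * (2 * (70 * l) + 2 * (l * τ))) * ε := by
    refine hc N (fun r => ((2 * d r : ℝ) : ℂ) * conj (Z r)) _ (by positivity) fun u hu => ?_
    have e1 : (∑ r ∈ Icc 1 N, ((2 * d r : ℝ) : ℂ) * conj (Z r) * u ^ r).re =
        2 * (∑ z ∈ S, (1 + ∑ r ∈ Icc 1 N, (1 - s) ^ r * ((u * conj z) ^ r).re) -
          ∑ z ∈ S, (1 + ∑ r ∈ Icc 1 N, (1 - 4 * s) ^ r * ((u * conj z) ^ r).re)) := by
      rw [← sum_sub_distrib, Complex.re_sum]
      have e2 : ∀ z ∈ S, (1 + ∑ r ∈ Icc 1 N, (1 - s) ^ r * ((u * conj z) ^ r).re) -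
          (1 + ∑ r ∈ Icc 1 N, (1 - 4 * s) ^ r * ((u * conj z) ^ r).re) =
          ∑ r ∈ Icc 1 N, d r * ((u * conj z) ^ r).re := by
        intro z _
        rw [add_sub_add_left_eq_sub, ← sum_sub_distrib]
        exact sum_congr rfl fun r _ => by rw [hd, sub_mul]
      rw [sum_congr rfl e2, sum_comm, mul_sum]
      refine sum_congr rfl fun r _ => ?_
      rw [mul_assoc, Complex.re_ofReal_mul, mul_comm (conj (Z r)), hZ, re_conj_sum, ← mul_sum,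
        mul_assoc]
    rw [e1]
    have e3 := cauchy_up h (70 * l) N S (1 - s) u hJ hS1 (by linarith) (by linarith) hh hu
    rw [← hτ] at e3
    push_cast at e3
    have e4 : ∑ z ∈ S, -τ ≤
        ∑ z ∈ S, (1 + ∑ r ∈ Icc 1 N, (1 - 4 * s) ^ r * ((u * conj z) ^ r).re) := by
      refine sum_le_sum fun z hz => ?_
      have e5 := cauchy_low h N (1 - 4 * s) (u * conj z) (by linarith) (by linarith) (by
        rw [norm_mul, hu, Complex.norm_conj, norm_root hJ (hS1 z hz)]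
        norm_num)
      have e6 := tail_le s N hs0 hs1
      rw [← hτ] at e6
      linarith
    rw [sum_const, nsmul_eq_mul] at e4
    have e7 := mul_le_mul_of_nonneg_right hS2' hτ0
    linarith
  -- conclusion
  have f1 : 3 * s / 400 * (l * (2 * (70 * l) + l * τ)) = 105 / 1000 * l + 3 / 4000 * (l * τ) := by
    have : 3 * s / 400 * (l * (2 * (70 * l) + l * τ)) =
        3 / 400 * (s * l) * (2 * (70 * l) + l * τ) := by ring
    rw [this, hsl]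
    ring
  have f2 : τ * K = l * τ + 4 * (l * τ) * ε + l * (l * (2 * τ)) := by
    rw [hK]
    ring
  have f3 : 0 ≤ (l : ℝ) * τ := by positivity
  have f4 : (l : ℝ) * ε ≤ L * ε := mul_le_mul_of_nonneg_right hL' hε
  have f5 : 0 ≤ (L : ℝ) * ε := by positivity
  rw [split] at up
  rw [f1] at partM
  nlinarith

theorem sSeq (h : SKern) : SSeq := by
  classical
  intro L w M c ε hε hL hb hlog hp hM hc
  have key : ∀ {A : Type} [AddCommMonoid A] (φ : ℂ → A),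
      (w.map φ).sum = ∑ i : w.ToType, φ i := by
    intro A _ φ
    conv_lhs => rw [← Multiset.map_univ_coe w, Multiset.map_map]
    rfl
  rw [← Multiset.card_coe] at hL ⊢
  refine core h (fun i : w.ToType => (i : ℂ)) L M c ε hε hL
    (fun i => hb _ Multiset.coe_mem) ?_ (fun r hr => ?_) hM hc
  · rw [← key fun b => -log ‖b‖]
    exact hlog
  · rw [← key fun b => b ^ r]
    exact hp r hr

end Pool.Agent.MP_670f9a_nt.H5
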