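import Pool.Agent.MP_670f9a_nt.H13.Spec

/-!
Algebra of the Graeffe transform.
-/

namespace Pool.Agent.MP_670f9a_nt.H5

open Polynomial Pool.Agent.MP_670f9a_nt.H13

lemma coeff_neg_X {R : Type} [CommRing R] (P : R[X]) (n : ℕ) :
    (P.comp (-X)).coeff n = P.coeff n * (-1) ^ n := by
  rw [← comp_C_mul_X_coeff]
  simp

lemma gr_coeff (G : ℤ[X][X]) (j : ℕ) : (gr G).coeff j = (G * G.comp (-X)).coeff (j * 2) :=
  coeff_contract two_ne_zero _ _

lemma gr_expand (G : ℤ[X][X]) : expand ℤ[X] 2 (gr G) = G * G.comp (-X) := by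
  refine Polynomial.ext fun n => ?_
  rw [coeff_expand two_pos]
  split_ifs with h
  · rw [gr_coeff, Nat.div_mul_cancel h]
  · have h1 : (G * G.comp (-X)).comp (-X) = G * G.comp (-X) := by
      rw [mul_comp, comp_assoc, mul_comm]
      simp
    have h2 := coeff_neg_X (G * G.comp (-X)) n
    rw [h1, Odd.neg_one_pow (Nat.odd_iff.2 (by omega))] at h2
    have h3 : 2 * (G * G.comp (-X)).coeff n = 0 := by linear_combination h2
    exact ((mul_eq_zero.1 h3).resolve_left two_ne_zero).symm

lemma wt_mul {L d : ℕ} {F G : ℤ[X][X]} (hF : Wt L d F) (hG : Wt L d G) : Wt L d (F * G) := by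
  intro j
  rcases Nat.eq_zero_or_pos d with rfl | hd
  · simp
  rw [mul_comm, ← Nat.le_div_iff_mul_le hd, coeff_mul]
  refine natDegree_sum_le_of_forall_le _ _ fun p hp => ?_
  have h0 : p.1 + p.2 = j := by simpa using hp
  rw [Nat.le_div_iff_mul_le hd, ← h0]
  have h1 := hF p.1
  have h2 := hG p.2
  have h3 := Nat.mul_le_mul_right d (natDegree_mul_le (p := F.coeff p.1) (q := G.coeff p.2))
  nlinarith

lemma wt_neg {L d : ℕ} {G : ℤ[X][X]} (hG : Wt L d G) : Wt L d (G.comp (-X)) := by
  intro j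
  rw [coeff_neg_X]
  rcases neg_one_pow_eq_or ℤ[X] j with h | h <;> simpa [h] using hG j

lemma wt_gr {L d : ℕ} {G : ℤ[X][X]} (hG : Wt L d G) : Wt (2 * L) d (gr G) := by
  intro j
  rw [gr_coeff]
  exact (wt_mul hG (wt_neg hG) _).trans (le_of_eq (by ring))

lemma wt_fr {L d : ℕ} {G : ℤ[X][X]} (hG : Wt L d G) : Wt (2 * L) d (fr G) := by
  intro j
  have h1 : (fr G).coeff j = expand ℤ 2 (G.coeff j) := coeff_map _ _
  rw [h1, natDegree_expand]
  have := hG j
  nlinarith

lemma lin_add (s t : Multiset ℂ) : lin (s + t) = lin s * lin t := by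
  simp [lin]

lemma lin_neg (s : Multiset ℂ) : (lin s).comp (-X) = lin (s.map fun w => -w) := by
  induction s using Multiset.induction_on with
  | empty => simp [lin]
  | cons a s ih =>
    simp only [lin, Multiset.map_cons, Multiset.prod_cons, mul_comp] at ih ⊢
    rw [ih]
    simp

lemma lin_sq (s : Multiset ℂ) :
    expand ℂ 2 (lin (s.map fun w => w ^ 2)) = lin s * (lin s).comp (-X) := by
  induction s using Multiset.induction_on with
  | empty => simp [lin]
  | cons a s ih =>
    simp only [lin, Multiset.map_cons, Multiset.prod_cons, mul_comp, map_mul] at ih ⊢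
    rw [ih]
    simp
    ring

lemma map_prod_neg (G : ℤ[X][X]) (x : ℂ) :
    (G * G.comp (-X)).map (ev x) = G.map (ev x) * (G.map (ev x)).comp (-X) := by
  simp [Polynomial.map_mul, map_comp]

lemma gr_map (G : ℤ[X][X]) (x : ℂ) (s : Multiset ℂ) (h : G.map (ev x) = lin s) :
    (gr G).map (ev x) = lin (s.map fun w => w ^ 2) := by
  refine expand_injective two_pos ?_
  rw [lin_sq, ← map_expand, gr_expand, map_prod_neg, h]

lemma fr_map (G : ℤ[X][X]) (x : ℂ) : (fr G).map (ev x) = G.map (ev (x ^ 2)) := by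
  rw [fr, Polynomial.map_map]
  congr 1
  refine Polynomial.ringHom_ext (fun a => ?_) ?_ <;> simp [ev]

theorem sgr : SGr := by
  refine ⟨gr_expand, fun G h => ?_, fun G => ?_, fun L d G => wt_gr, fun L d G h => ?_, gr_map,
    fr_map, fun G x s h => ?_, fun G x s h => ?_⟩
  · rw [gr_coeff, zero_mul, mul_coeff_zero, coeff_neg_X, h]
    simp
  · have h1 := natDegree_expand 2 (gr G)
    have h2 := natDegree_mul_le (p := G) (q := G.comp (-X))
    have h3 : (G.comp (-X)).natDegree ≤ G.natDegree := by simpa using natDegree_comp_le (p := G) (q := -X)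
    rw [gr_expand] at h1
    omega
  · exact ⟨wt_mul (wt_gr h) (wt_neg (wt_gr h)), wt_mul (wt_fr h) (wt_neg (wt_fr h))⟩
  · rw [PA, map_prod_neg, gr_map G x s h, lin_neg, lin_add, Multiset.map_map]
    rfl
  · rw [PB, map_prod_neg, fr_map, h, lin_neg, lin_add]

end Pool.Agent.MP_670f9a_nt.H5
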